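import Pool.Agent.Z15.Q.Defs

/-!
Statements of lemmas (tasks of helper15, prefix Q_: invariants of algebras of real type on the
cohomology of abelian varieties).
-/

set_option autoImplicit false

namespace Pool.Agent.Z15.Q

open Module TensorProduct Pool.Agent.Y90 Pool.Agent.W546.GHC Pool.Agent.H204R3.CM

/-! ### Arrays -/

/-- the identity of Bochner type -/
def Q_BOCH : Prop :=
  ∀ (J : Type) (K A : J → Type) [Fintype J] [∀ j, Fintype (K j)] [∀ j, Fintype (A j)] (i : ℕ)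
    (a : Arr K A i), Anti a → Van 1 i a → XKill a → ∀ b, 0 < cnt b → a b = 0

/-- contractions and the operators `opP` -/
def Q_ALG : Prop :=
  ∀ (J : Type) (K A : J → Type) [Fintype J] [∀ j, Fintype (K j)] [∀ j, Fintype (A j)],
    (∀ (i : ℕ) (a : Arr K A (i + 2)), Anti a → ∀ (j : J) (k l : K j) (j' : J) (α β : A j'),
      con j' α β (opP j k l a + opP j l k a) =
        opP j k l (con j' α β a) + opP j l k (con j' α β a)) ∧
    (∀ (i : ℕ) (a : Arr K A (i + 2)) (j : J) (α β : A j), Anti a → Anti (con j α β a)) ∧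
    (∀ (i : ℕ) (a : Arr K A i) (j : J) (k l : K j), Anti a → Anti (opP j k l a))

/-- the action of matrices -/
def Q_PB : Prop :=
  ∀ (J : Type) (K A : J → Type) [Fintype J] [∀ j, Fintype (K j)] [∀ j, Fintype (A j)]
    (M : ∀ j, Matrix (A j) (A j) ℝ),
    (∀ (i : ℕ) (a : Arr K A (i + 2)) (j : J) (α β : A j), con j α β (pb M a) =
      ∑ γ, ∑ δ, ((M j γ α * M j δ β : ℝ) : ℂ) • pb M (con j γ δ a)) ∧
    (∀ (i : ℕ) (a : Arr K A i) (j : J) (k l : K j), pb M (opP j k l a) = opP j k l (pb M a)) ∧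
    (∀ (i : ℕ) (a : Arr K A i), Anti a → Anti (pb M a)) ∧
    (∀ (i : ℕ) (a a' : Arr K A i), ∑ b, pb M a b * starRingEnd ℂ (a' b) =
      ∑ b, a b * starRingEnd ℂ (pb (fun j => (M j).transpose) a' b)) ∧
    (∀ (i q : ℕ) (a : Arr K A i), pb M (part q a) = part q (pb M a)) ∧
    (∀ (i : ℕ) (a a' : Arr K A i), pb M (a + a') = pb M a + pb M a') ∧
    (∀ (i : ℕ) (c : ℂ) (a : Arr K A i), pb M (c • a) = c • pb M a) ∧
    (∀ (c i : ℕ) (a : Arr K A i), Van c i a → Van c i (pb M a))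

/-- the components of an array -/
def Q_GR : Prop :=
  ∀ (J : Type) (K A : J → Type) [Fintype J] [∀ j, Fintype (K j)] [∀ j, Fintype (A j)],
    (∀ (i q : ℕ) (a : Arr K A (i + 2)) (j : J) (α β : A j),
      con j α β (part (q + 1) a) = part q (con j α β a)) ∧
    (∀ (i : ℕ) (a : Arr K A (i + 2)) (j : J) (α β : A j), con j α β (part 0 a) = 0) ∧
    (∀ (i q : ℕ) (a : Arr K A i) (j : J) (k l : K j),
      opP j k l (part (q + 1) a) = part q (opP j k l a)) ∧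
    (∀ (i : ℕ) (a : Arr K A i) (j : J) (k l : K j), opP j k l (part 0 a) = 0) ∧
    (∀ (i q : ℕ) (a : Arr K A i), Anti a → Anti (part q a)) ∧
    (∀ (i : ℕ) (a : Arr K A i), a = ∑ q ∈ Finset.range (i + 1), part q a) ∧
    (∀ (c i q : ℕ) (a : Arr K A i), Van c i a → Van c i (part q a)) ∧
    (∀ (c i : ℕ) (a : Arr K A i) (j : J) (k l : K j), Anti a → Van c i a →
      Van c i (opP j k l a + opP j l k a))

/-- vectors of highest weight -/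
def Q_HW : Prop :=
  ∀ (J : Type) (K A : J → Type) [Fintype J] [∀ j, Fintype (K j)] [∀ j, Fintype (A j)] (i q c : ℕ)
    (a : Arr K A i), Anti a → XKill a → (∀ b, cnt b ≠ q → a b = 0) → Van c i a → a ≠ 0 → q < c

/-- operators which kill the arrays with few indices `inr` -/
def Q_CORE : Prop :=
  ∀ (J : Type) (K A : J → Type) [Fintype J] [∀ j, Fintype (K j)] [∀ j, Fintype (A j)] (i c : ℕ)
    (ι : Type) [Fintype ι] (x : ι → ℝ) (M : ι → ∀ j, Matrix (A j) (A j) ℝ),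
    (∀ a : Arr K A i, Anti a → (∀ b, c ≤ cnt b → a b = 0) → eop x M a = 0) →
    ∀ a : Arr K A i, Anti a → Van c i a → eop x (fun l j => (M l j).transpose) a = 0

/-- duality -/
def Q_DUAL : Prop :=
  ∀ (J : Type) (K A : J → Type) [Fintype J] [∀ j, Fintype (K j)] [∀ j, Fintype (A j)] (i c : ℕ)
    (x : Arr K A i), Anti x →
    (∀ a : Arr K A i, Anti a → Van c i a → ∑ b, x b * starRingEnd ℂ (a b) = 0) → x ∈ Gen c i

/-- the theorem for arrays -/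
def Q_AM : Prop :=
  ∀ (J : Type) (K A : J → Type) [Fintype J] [∀ j, Fintype (K j)] [∀ j, Fintype (A j)] (i c : ℕ)
    (ι : Type) [Fintype ι] (x : ι → ℝ) (M : ι → ∀ j, Matrix (A j) (A j) ℝ),
    (∀ a : Arr K A i, Anti a → (∀ b, c ≤ cnt b → a b = 0) → eop x M a = 0) →
    ∀ a : Arr K A i, Anti a → eop x M a ∈ Gen c i

/-! ### Forms and arrays -/

/-- the array of a form -/
def Q_FORM : Prop :=
  ∀ (J : Type) (K A : J → Type) [Fintype J] [∀ j, Fintype (K j)] [∀ j, Fintype (A j)] (T : Type)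
    [AddCommGroup T] [Module ℂ T] (t : Basis (Σ j, K j × A j) ℂ T) (i : ℕ),
    (∀ φ : T [⋀^Fin i]→ₗ[ℝ] ℂ, ∃ a : Arr K A i, IsArr t φ a) ∧
    (∀ (φ : T [⋀^Fin i]→ₗ[ℝ] ℂ) (a a' : Arr K A i), IsArr t φ a → IsArr t φ a' → a = a') ∧
    (∀ a : Arr K A i, Anti a → ∃ φ : T [⋀^Fin i]→ₗ[ℝ] ℂ, IsArr t φ a)

/-- types and inverse images -/
def Q_PULL : Prop :=
  ∀ (J : Type) (K A : J → Type) [Fintype J] [∀ j, Fintype (K j)] [∀ j, Fintype (A j)] (T : Type)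
    [AddCommGroup T] [Module ℂ T] (t : Basis (Σ j, K j × A j) ℂ T) (i : ℕ)
    (φ : T [⋀^Fin i]→ₗ[ℝ] ℂ) (a : Arr K A i), IsArr t φ a →
    (∀ q ≤ i, (∀ b, cnt b ≠ q → a b = 0) → φ ∈ typeForms T i (i - q) q) ∧
    (∀ (ρ : T →ₗ[ℂ] T) (M : ∀ j, Matrix (A j) (A j) ℝ), (∀ (u : T) (j : J) (k : K j) (α : A j),
      t.repr (ρ u) ⟨j, k, α⟩ = ∑ β : A j, ((M j α β : ℝ) : ℂ) * t.repr u ⟨j, k, β⟩) →
      IsArr t (φ.compLinearMap (ρ.restrictScalars ℝ)) (pb M a))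

/-! ### Adapted coordinates -/

/-- positive involutions of products of algebras of real matrices -/
def Q_INV : Prop :=
  ∀ (m : ℕ) (n : Fin m → ℕ) (T : Type) [AddCommGroup T] [Module ℂ T] [FiniteDimensional ℂ T]
    (Ψ : T → T → ℂ), (∀ u', IsLinearMap ℂ fun u => Ψ u u') →
    (∀ u u', Ψ u' u = starRingEnd ℂ (Ψ u u')) → (∀ u, u ≠ 0 → 0 < (Ψ u u).re) →
    ∀ θ : ((j : Fin m) → Matrix (Fin (n j)) (Fin (n j)) ℝ) →ₐ[ℝ] Module.End ℂ T,
    (∀ a, ∃ a', ∀ u u', Ψ (θ a u) u' = Ψ u (θ a' u')) →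
    ∃ e : ((j : Fin m) → Matrix (Fin (n j)) (Fin (n j)) ℝ) ≃ₐ[ℝ]
      ((j : Fin m) → Matrix (Fin (n j)) (Fin (n j)) ℝ),
      ∀ a u u', Ψ (θ (e a) u) u' = Ψ u (θ (e fun j => (a j).transpose) u')

/-- representations of products of algebras of real matrices -/
def Q_BAS : Prop :=
  ∀ (m : ℕ) (n : Fin m → ℕ) (T : Type) [AddCommGroup T] [Module ℂ T] [FiniteDimensional ℂ T]
    (Ψ : T → T → ℂ), (∀ u', IsLinearMap ℂ fun u => Ψ u u') →
    (∀ u u', Ψ u' u = starRingEnd ℂ (Ψ u u')) → (∀ u, u ≠ 0 → 0 < (Ψ u u).re) →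
    ∀ θ : ((j : Fin m) → Matrix (Fin (n j)) (Fin (n j)) ℝ) →ₐ[ℝ] Module.End ℂ T,
    (∀ a u u', Ψ (θ a u) u' = Ψ u (θ (fun j => (a j).transpose) u')) →
    ∃ (K : Fin m → Type) (_ : ∀ j, Fintype (K j)) (t : Basis (Σ j, K j × Fin (n j)) ℂ T),
      (∀ u u', Ψ u u' = ∑ s, t.repr u s * starRingEnd ℂ (t.repr u' s)) ∧
      ∀ a u (j : Fin m) (k : K j) (α : Fin (n j)), t.repr (θ a u) ⟨j, k, α⟩ =
        ∑ β : Fin (n j), ((a j α β : ℝ) : ℂ) * t.repr u ⟨j, k, β⟩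

/-- existence of adapted coordinates -/
def Q_ADP : Prop :=
  ∀ (X : AV) (E : X.H → X.H → ℚ) (R : Subalgebra ℚ (Module.End ℚ X.H)), RealType X E R →
    ∃ (J : Type) (K A : J → Type) (_ : Fintype J) (_ : ∀ j, Fintype (K j))
      (_ : ∀ j, Fintype (A j)) (t : Basis (Σ j, K j × A j) ℂ X.T)
      (mat : R → ∀ j, Matrix (A j) (A j) ℝ), Adapted X E R t mat

/-! ### Rational classes -/

/-- the symmetrized forms are combinations of classes of divisors -/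
def Q_DIV : Prop :=
  ∀ (X : AV) (E : X.H → X.H → ℚ) (R : Subalgebra ℚ (Module.End ℚ X.H)), RealType X E R →
    ∀ (J : Type) (K A : J → Type) [Fintype J] [∀ j, Fintype (K j)] [∀ j, Fintype (A j)]
      (t : Basis (Σ j, K j × A j) ℂ X.T) (mat : R → ∀ j, Matrix (A j) (A j) ℝ),
      Adapted X E R t mat → ∀ (j : J) (α β : A j),
      ∃ (L : Type) (_ : Fintype L) (x : L → ℂ) (B : L → X.H [⋀^Fin 2]→ₗ[ℚ] ℚ),
        (∀ l, IsHodge X.per (B l)) ∧ ∀ v : Fin 2 → X.H, ∑ l, x l * ((B l v : ℚ) : ℂ) =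
          ∑ s, ∑ s', om j α β s s' * (bet t s (X.per (v 0)) * bet t s' (X.per (v 1)) -
            bet t s (X.per (v 1)) * bet t s' (X.per (v 0)))

/-- products of classes of divisors and rational classes -/
def Q_WDG : Prop :=
  ∀ (X : AV) (i : ℕ),
    Submodule.span ℚ (divisorProducts X.per i 0) = (⊤ : Submodule ℚ (X.H [⋀^Fin i]→ₗ[ℚ] ℚ)) ∧
    ∀ (c : ℕ) (B : X.H [⋀^Fin 2]→ₗ[ℚ] ℚ), IsHodge X.per B →
      ∀ η ∈ Submodule.span ℚ (divisorProducts X.per i c),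
      ∃ g ∈ Submodule.span ℚ (divisorProducts X.per (i + 2) (c + 1)),
        ∀ v : Fin (i + 2) → X.H, g v = ∑ σ : Equiv.Perm (Fin (i + 2)),
          ((Equiv.Perm.sign σ : ℤ) : ℚ) * (B ![v (σ 0), v (σ 1)] * η (fun m => v (σ m.succ.succ)))

/-- extension of rational forms and descent -/
def Q_EXT : Prop :=
  ∀ (X : AV) (i : ℕ),
    (∀ f : X.H [⋀^Fin i]→ₗ[ℚ] ℚ, ∃ φ : X.T [⋀^Fin i]→ₗ[ℝ] ℂ, IsExt X.per f φ) ∧
    (∀ φ φ' : X.T [⋀^Fin i]→ₗ[ℝ] ℂ, (∀ w : Fin i → X.H, φ (fun l => X.per (w l)) =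
      φ' (fun l => X.per (w l))) → φ = φ') ∧
    complexify X.per (⊤ : Submodule ℚ (X.H [⋀^Fin i]→ₗ[ℚ] ℚ)) = ⊤ ∧
    (∀ (V : Submodule ℚ (X.H [⋀^Fin i]→ₗ[ℚ] ℚ)) (f : X.H [⋀^Fin i]→ₗ[ℚ] ℚ)
      (φ : X.T [⋀^Fin i]→ₗ[ℝ] ℂ), IsExt X.per f φ → φ ∈ complexify X.per V → f ∈ V)

/-- the forms of the arrays in `Gen` -/
def Q_SPAN : Prop :=
  ∀ (X : AV) (E : X.H → X.H → ℚ) (R : Subalgebra ℚ (Module.End ℚ X.H)), RealType X E R →
    ∀ (J : Type) (K A : J → Type) [Fintype J] [∀ j, Fintype (K j)] [∀ j, Fintype (A j)]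
      (t : Basis (Σ j, K j × A j) ℂ X.T) (mat : R → ∀ j, Matrix (A j) (A j) ℝ),
      Adapted X E R t mat → ∀ (c i : ℕ), ∀ a ∈ Gen c i, ∀ φ : X.T [⋀^Fin i]→ₗ[ℝ] ℂ,
        IsArr t φ a → φ ∈ complexify X.per (Submodule.span ℚ (divisorProducts X.per i c))

/-- the main theorem -/
def Q_MAIN : Prop :=
  ∀ (X : AV) (E : X.H → X.H → ℚ) (R : Subalgebra ℚ (Module.End ℚ X.H)), RealType X E R →
    ∀ (i c : ℕ) (ι : Type) [Fintype ι] (x : ι → ℚ) (r : ι → Module.End ℚ X.H)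
      (ρ : ι → X.T →ₗ[ℂ] X.T), (∀ l, r l ∈ R) → (∀ l v, ρ l (X.per v) = X.per (r l v)) →
      (∀ q < c, ∀ φ ∈ typeForms X.T i (i - q) q,
        ∑ l, (x l : ℂ) • φ.compLinearMap ((ρ l).restrictScalars ℝ) = 0) →
      ∀ f : X.H [⋀^Fin i]→ₗ[ℚ] ℚ, ∑ l, x l • f.compLinearMap (r l) ∈
        Submodule.span ℚ (divisorProducts X.per i c)

/-! ### Implications -/

def Q_HWi : Prop := Q_BOCH → Q_ALG → Q_GR → Q_HW
def Q_COREi : Prop := Q_ALG → Q_PB → Q_GR → Q_HW → Q_CORE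
def Q_AMi : Prop := Q_PB → Q_CORE → Q_DUAL → Q_AM
def Q_ADPi : Prop := Q_INV → Q_BAS → Q_ADP
def Q_SPANi : Prop := Q_FORM → Q_DIV → Q_WDG → Q_EXT → Q_SPAN
def Q_MAINi : Prop := Q_AM → Q_FORM → Q_PULL → Q_ADP → Q_EXT → Q_SPAN → Q_MAIN

end Pool.Agent.Z15.Q
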