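import Pool.Agent.Y90.Defs
import Pool.Agent.W546.GHC.Defs

/-!
Algebras of real type of endomorphisms of complex abelian varieties, and arrays of coefficients of
alternating forms (helper15).
-/

set_option autoImplicit false

namespace Pool.Agent.Z15.Q

open Module TensorProduct Pool.Agent.Y90 Pool.Agent.W546.GHC

/-- `R` is an algebra of endomorphisms (up to isogeny) of the complex abelian variety `X`, stable under
the Rosati involution `r ↦ r'` of the polarization `E`, and of real type: `R ⊗ ℝ` is a product of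
algebras of real matrices. -/
structure RealType (X : AV) (E : X.H → X.H → ℚ) (R : Subalgebra ℚ (Module.End ℚ X.H)) : Prop where
  pol : IsPolarization X.per E
  hom : ∀ r ∈ R, IsHom X X r
  rosati : ∀ r ∈ R, ∃ r' ∈ R, ∀ v w, E (r v) w = E v (r' w)
  real : ∃ (m : ℕ) (n : Fin m → ℕ),
    Nonempty ((ℝ ⊗[ℚ] R) ≃ₐ[ℝ] ((j : Fin m) → Matrix (Fin (n j)) (Fin (n j)) ℝ))

/-! ### Arrays -/

section arrays

variable {J : Type} {K A : J → Type}

/-- The indices of the coordinates: `inl (j, k, α)` for `z_{j k α}` and `inr (j, k, α)` for its complex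
conjugate. -/
abbrev Co (K A : J → Type) : Type := (Σ j, K j × A j) ⊕ (Σ j, K j × A j)

/-- arrays of complex numbers with `i` indices -/
abbrev Arr (K A : J → Type) (i : ℕ) : Type := (Fin i → Co K A) → ℂ

/-- antisymmetric arrays -/
def Anti {i : ℕ} (a : Arr K A i) : Prop :=
  ∀ (σ : Equiv.Perm (Fin i)) (b : Fin i → Co K A), a (b ∘ σ) = ((Equiv.Perm.sign σ : ℤ) : ℂ) * a b

/-- the number of the indices `inr` -/
def cnt {i : ℕ} (b : Fin i → Co K A) : ℕ :=
  (Finset.univ.filter fun m => (b m).isRight = true).card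

/-- contraction with the symmetrized form `(j, α, β)` -/
noncomputable def con [∀ j, Fintype (K j)] {i : ℕ} (j : J) (α β : A j) (a : Arr K A (i + 2)) :
    Arr K A i := fun τ => ∑ k : K j,
  (a (Fin.cons (Sum.inl ⟨j, k, α⟩) (Fin.cons (Sum.inr ⟨j, k, β⟩) τ)) +
    a (Fin.cons (Sum.inl ⟨j, k, β⟩) (Fin.cons (Sum.inr ⟨j, k, α⟩) τ)))

/-- all `c`-fold contractions vanish -/
def Van [∀ j, Fintype (K j)] : ℕ → (i : ℕ) → Arr K A i → Prop
  | 0, _, a => a = 0
  | c + 1, i + 2, a => ∀ (j : J) (α β : A j), Van c i (con j α β a)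
  | _ + 1, 0, _ => True
  | _ + 1, 1, _ => True

open Classical in
/-- the operator which replaces `inl (j, k, α)` by `inr (j, l, α)` -/
noncomputable def opP [∀ j, Fintype (A j)] {i : ℕ} (j : J) (k l : K j) (a : Arr K A i) : Arr K A i :=
  fun b => ∑ m : Fin i, ∑ α : A j,
    if b m = Sum.inl ⟨j, k, α⟩ then a (Function.update b m (Sum.inr ⟨j, l, α⟩)) else 0

/-- `a` is killed by the operators `opP j k l + opP j l k` -/
def XKill [∀ j, Fintype (A j)] {i : ℕ} (a : Arr K A i) : Prop :=
  ∀ (j : J) (k l : K j), opP j k l a + opP j l k a = 0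

/-- the component with `q` indices `inr` -/
noncomputable def part {i : ℕ} (q : ℕ) (a : Arr K A i) : Arr K A i :=
  fun b => if cnt b = q then a b else 0

/-- the first component of an index -/
def jOf : Co K A → J
  | Sum.inl s => s.1
  | Sum.inr s => s.1

/-- the last component of an index -/
def aOf : ∀ s : Co K A, A (jOf s)
  | Sum.inl s => s.2.2
  | Sum.inr s => s.2.2

/-- change of the last component of an index -/
def setA : ∀ s : Co K A, A (jOf s) → Co K A
  | Sum.inl s, c => Sum.inl ⟨s.1, s.2.1, c⟩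
  | Sum.inr s, c => Sum.inr ⟨s.1, s.2.1, c⟩

/-- the action of real matrices on the last components -/
noncomputable def pb [∀ j, Fintype (A j)] {i : ℕ} (M : ∀ j, Matrix (A j) (A j) ℝ) (a : Arr K A i) :
    Arr K A i := fun b => ∑ γ : (∀ m : Fin i, A (jOf (b m))),
  (∏ m : Fin i, ((M (jOf (b m)) (γ m) (aOf (b m)) : ℝ) : ℂ)) * a (fun m => setA (b m) (γ m))

/-- linear combinations -/
noncomputable def eop [∀ j, Fintype (A j)] {i : ℕ} {ι : Type} [Fintype ι] (x : ι → ℝ)
    (M : ι → ∀ j, Matrix (A j) (A j) ℝ) (a : Arr K A i) : Arr K A i :=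
  ∑ l, (x l : ℂ) • pb (M l) a

open Classical in
/-- the symmetrized form `(j, α, β)` -/
noncomputable def om [∀ j, Fintype (K j)] (j : J) (α β : A j) (s s' : Co K A) : ℂ :=
  ∑ k : K j, ((if s = Sum.inl ⟨j, k, α⟩ ∧ s' = Sum.inr ⟨j, k, β⟩ then 1 else 0) +
    (if s = Sum.inl ⟨j, k, β⟩ ∧ s' = Sum.inr ⟨j, k, α⟩ then 1 else 0))

/-- wedge product of an array with two indices and an array -/
noncomputable def wdg {i : ℕ} (ω : Co K A → Co K A → ℂ) (η : Arr K A i) : Arr K A (i + 2) :=
  fun b => ∑ σ : Equiv.Perm (Fin (i + 2)), ((Equiv.Perm.sign σ : ℤ) : ℂ) *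
    (ω (b (σ 0)) (b (σ 1)) * η (fun m => b (σ m.succ.succ)))

/-- the arrays generated by the `c`-fold products of the symmetrized forms -/
noncomputable def Gen [∀ j, Fintype (K j)] : ℕ → (i : ℕ) → Submodule ℂ (Arr K A i)
  | 0, _ => Submodule.span ℂ {a | Anti a}
  | c + 1, i + 2 => Submodule.span ℂ
      {a | ∃ (j : J) (α β : A j), ∃ η ∈ Gen c i, a = wdg (om j α β) η}
  | _ + 1, 0 => ⊥
  | _ + 1, 1 => ⊥

end arrays

/-! ### Coordinates -/

section coordinates

variable {J : Type} {K A : J → Type} {T : Type} [AddCommGroup T] [Module ℂ T]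

/-- the coordinates and their complex conjugates -/
noncomputable def bet (t : Basis (Σ j, K j × A j) ℂ T) : Co K A → T → ℂ
  | Sum.inl s, u => t.repr u s
  | Sum.inr s, u => starRingEnd ℂ (t.repr u s)

/-- `a` is the array of coefficients of the form `φ` -/
def IsArr [Fintype J] [∀ j, Fintype (K j)] [∀ j, Fintype (A j)] (t : Basis (Σ j, K j × A j) ℂ T)
    {i : ℕ} (φ : T [⋀^Fin i]→ₗ[ℝ] ℂ) (a : Arr K A i) : Prop :=
  Anti a ∧ ∀ v : Fin i → T, φ v = ∑ b : Fin i → Co K A, a b * ∏ m, bet t (b m) (v m)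

/-- `φ` is the extension of the rational form `f` -/
def IsExt {H : Type} [AddCommGroup H] [Module ℚ H] (per : H →+ T) {i : ℕ} (f : H [⋀^Fin i]→ₗ[ℚ] ℚ)
    (φ : T [⋀^Fin i]→ₗ[ℝ] ℂ) : Prop :=
  ∀ w : Fin i → H, φ (fun l => per (w l)) = ((f w : ℚ) : ℂ)

/-- Coordinates which are adapted to the algebra `R` of endomorphisms: the polarization is the standard
Hermitian form, the elements of `R` act by real matrices on the last index, and the real span of
these matrices consists of all families of real matrices. -/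
structure Adapted (X : AV) (E : X.H → X.H → ℚ) (R : Subalgebra ℚ (Module.End ℚ X.H)) [Fintype J]
    [∀ j, Fintype (K j)] [∀ j, Fintype (A j)] (t : Basis (Σ j, K j × A j) ℂ X.T)
    (mat : R → ∀ j, Matrix (A j) (A j) ℝ) : Prop where
  pol : ∀ v w : X.H, E v w =
    (∑ s, t.repr (X.per v) s * starRingEnd ℂ (t.repr (X.per w) s)).im
  act : ∀ (r : R) (v : X.H) (j : J) (k : K j) (α : A j), t.repr (X.per (r.1 v)) ⟨j, k, α⟩ =
    ∑ β : A j, ((mat r j α β : ℝ) : ℂ) * t.repr (X.per v) ⟨j, k, β⟩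
  full : ∀ N : (∀ j, Matrix (A j) (A j) ℝ), N ∈ Submodule.span ℝ (Set.range mat)

end coordinates

end Pool.Agent.Z15.Q
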