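import Pool.Agent.T2h31.Q15.Q_ALG
import Pool.Agent.T2h31.Q15.Q_PB
import Pool.Agent.T2h31.Q15.Q_GR
import Pool.Agent.K2h1.Q15.Q_HW
import Pool.Agent.K2h1.Q15.Q_FORM
import Pool.Agent.K2h1.Q15.Q_PULL
import Pool.Agent.K2h1.Q15.Q_AM
import Pool.Agent.T5h55.Q15.CORE
import Pool.Agent.T5h55.Q15.BOCH
import Pool.Agent.T2h59.Q15.Q_DUAL
import Pool.Agent.T3h91.Q15.Q_INV
import Pool.Agent.T2h69.Q15.BAS
import Pool.Agent.T2h69.Q15.ADP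
import Pool.Agent.T2h69.Q15.MAIN
import Pool.Agent.T2h66.Q15.DIV
import Pool.Agent.T2h66.Q15.EXT
import Pool.Agent.T2h66.Q15.SPAN
import Pool.Agent.T2h94.Q15.WDG

/-!
Assembly: algebras of real type.
-/

set_option autoImplicit false

namespace Pool.Agent.Z15.Q

open Pool.Agent.T5h55.Q15.CORE Pool.Agent.T5h55.Q15.BOCH Pool.Agent.K2h1.Q15 Pool.Agent.T2h59.Q15
  Pool.Agent.T3h91.Q15 Pool.Agent.T2h69.Q15 Pool.Agent.T2h66.Q15 Pool.Agent.T2h66.Q15.DIV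
  Pool.Agent.T2h66.Q15.SPAN Pool.Agent.T2h94.Q15

theorem q_HW : Q_HW := t_Q_HWi t_Q_BOCH t_Q_ALG t_Q_GR

theorem q_AM : Q_AM := t_Q_AMi t_Q_PB (t_Q_COREi t_Q_ALG t_Q_PB t_Q_GR q_HW) t_Q_DUAL

theorem q_SPAN : Q_SPAN := t_Q_SPAN t_Q_FORM t_Q_DIV t_Q_WDG t_Q_EXT

theorem q_MAIN : Q_MAIN :=
  t_Q_MAINi q_AM t_Q_FORM t_Q_PULL (t_Q_ADPi t_Q_INV t_Q_BAS) t_Q_EXT q_SPAN

end Pool.Agent.Z15.Q
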